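import Pool.Agent.Helper6.HD.Defs
import Pool.Agent.Helper40.MT.MainC

/-!
# HD, module FIX: a tensor killed by the infinitesimal isometries is fixed by the similitudes
-/

set_option autoImplicit false
set_option maxHeartbeats 800000

open NumberField MU MT

namespace HD

/-! ## tensor powers of matrices -/

theorem fx_tpf_mul {R : Type} [CommRing R] {n a : ℕ} (M N : Fin a → Matrix (Fin n) (Fin n) R) :
    tpf M * tpf N = tpf (fun s => M s * N s) := by
  ext i j
  simp only [Matrix.mul_apply, tpf]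
  rw [Finset.prod_univ_sum, Fintype.piFinset_univ]
  refine Finset.sum_congr rfl fun k _ => ?_
  rw [Finset.prod_mul_distrib]

theorem fx_tpf_one {R : Type} [CommRing R] {n a : ℕ} :
    tpf (fun _ : Fin a => (1 : Matrix (Fin n) (Fin n) R)) = 1 := by
  ext i j
  rw [Matrix.one_apply]
  simp only [tpf, Matrix.one_apply]
  split_ifs with h
  · subst h
    simp
  · obtain ⟨s, hs⟩ := Function.ne_iff.mp h
    exact Finset.prod_eq_zero (Finset.mem_univ s) (if_neg hs)

theorem fx_tpf_map {R R' : Type} [CommRing R] [CommRing R'] {n a : ℕ} (φ : R →+* R')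
    (M : Fin a → Matrix (Fin n) (Fin n) R) :
    (tpf M).map φ = tpf (fun s => (M s).map φ) := by
  ext i j
  simp only [Matrix.map_apply, tpf, map_prod]

theorem fx_tpf_smul {R : Type} [CommRing R] {n a : ℕ} (c : R) (m : Matrix (Fin n) (Fin n) R) :
    tpf (fun _ : Fin a => c • m) = c ^ a • tpf (fun _ : Fin a => m) := by
  ext i j
  simp only [tpf, Matrix.smul_apply, smul_eq_mul, Finset.prod_mul_distrib, Finset.prod_const,
    Finset.card_univ, Fintype.card_fin]

theorem fx_dtp_map {R R' : Type} [CommRing R] [CommRing R'] {n a : ℕ} (φ : R →+* R')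
    (A : Matrix (Fin n) (Fin n) R) : (dtp a A).map φ = dtp a (A.map φ) := by
  have h1 : (dtp a A).map φ = ∑ s : Fin a,
      (tpf (Function.update (fun _ : Fin a => (1 : Matrix (Fin n) (Fin n) R)) s A)).map φ := by
    ext i j
    simp only [dtp, Matrix.map_apply, Matrix.sum_apply, map_sum]
  rw [h1, dtp]
  refine Finset.sum_congr rfl fun s _ => ?_
  rw [fx_tpf_map]
  congr 1
  funext r
  by_cases hr : r = s
  · subst hr
    simp
  · rw [Function.update_of_ne hr, Function.update_of_ne hr,
      Matrix.map_one φ (map_zero φ) (map_one φ)]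

/-! ## the action on tensors -/

/-- the tensor as a matrix -/
def fxm {R : Type} {n a b : ℕ} (t : Tensor n a b R) : Matrix (Fin a → Fin n) (Fin b → Fin n) R :=
  Matrix.of t

theorem fx_act {R : Type} [CommRing R] {n a b : ℕ} (g : Matrix.GeneralLinearGroup (Fin n) R)
    (t : Tensor n a b R) :
    fxm (act g t) = tpf (fun _ : Fin a => (g : Matrix (Fin n) (Fin n) R)) * fxm t *
      tpf (fun _ : Fin b => ((g⁻¹ : Matrix.GeneralLinearGroup (Fin n) R) :
        Matrix (Fin n) (Fin n) R)) := by
  ext i j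
  simp only [fxm, Matrix.of_apply, act, Matrix.mul_apply, tpf, Finset.sum_mul]
  rw [Finset.sum_comm]
  refine Finset.sum_congr rfl fun j' _ => Finset.sum_congr rfl fun i' _ => ?_
  ring

/-- `m` commutes with the endomorphism `t` of the tensor power -/
def FxC {R : Type} [CommRing R] {n a : ℕ} (t : Tensor n a a R) (m : Matrix (Fin n) (Fin n) R) :
    Prop :=
  tpf (fun _ : Fin a => m) * fxm t = fxm t * tpf (fun _ : Fin a => m)

theorem fx_fix {R : Type} [CommRing R] {n a : ℕ} (g : Matrix.GeneralLinearGroup (Fin n) R)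
    (t : Tensor n a a R) (h : FxC t (g : Matrix (Fin n) (Fin n) R)) : act g t = t := by
  have h1 : fxm (act g t) = fxm t := by
    rw [fx_act, h, Matrix.mul_assoc, fx_tpf_mul]
    have : (fun _ : Fin a => (g : Matrix (Fin n) (Fin n) R) *
        ((g⁻¹ : Matrix.GeneralLinearGroup (Fin n) R) : Matrix (Fin n) (Fin n) R)) =
        fun _ => 1 := by
      funext _
      rw [← Units.val_mul, mul_inv_cancel, Units.val_one]
    rw [this, fx_tpf_one, Matrix.mul_one]
  funext i j
  exact congrFun (congrFun h1 i) j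

theorem fx_mul {R : Type} [CommRing R] {n a : ℕ} {t : Tensor n a a R}
    {m m' : Matrix (Fin n) (Fin n) R} (h : FxC t m) (h' : FxC t m') : FxC t (m * m') := by
  unfold FxC at *
  rw [← fx_tpf_mul (fun _ => m) (fun _ => m'), Matrix.mul_assoc, h', ← Matrix.mul_assoc, h,
    Matrix.mul_assoc]

/-! ## the polynomials -/

theorem fx_der_prod {R A : Type*} [CommRing R] [CommRing A] [Algebra R A] {ι : Type*}
    [DecidableEq ι] (D : Derivation R A A) (S : Finset ι) (f : ι → A) :
    D (∏ s ∈ S, f s) = ∑ s ∈ S, (∏ b ∈ S.erase s, f b) * D (f s) := by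
  induction S using Finset.induction_on with
  | empty => simp
  | insert x S hx ih =>
    rw [Finset.prod_insert hx, Derivation.leibniz, ih, Finset.sum_insert hx,
      Finset.erase_insert hx, smul_eq_mul, smul_eq_mul, Finset.mul_sum, add_comm]
    congr 1
    refine Finset.sum_congr rfl fun s hs => ?_
    have hxs : x ≠ s := fun h => hx (h ▸ hs)
    rw [Finset.erase_insert_of_ne hxs, Finset.prod_insert (fun h => hx (Finset.mem_of_mem_erase h))]
    ring

variable {n : ℕ}

/-- constant polynomials -/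
noncomputable abbrev fxK (n : ℕ) : ℚ →+* MvPolynomial (Fin n × Fin n) ℚ := MvPolynomial.C

/-- the generic matrix -/
noncomputable def fxX (n : ℕ) :
    Matrix (Fin n) (Fin n) (MvPolynomial (Fin n × Fin n) ℚ) :=
  Matrix.of fun i j => MvPolynomial.X (i, j)

theorem fx_ldv_X (A : Matrix (Fin n) (Fin n) ℚ) (i j : Fin n) :
    ldv A (fxX n i j) = (fxX n * A.map (fxK n)) i j := by
  rw [Matrix.mul_apply]
  unfold ldv fxX
  rw [Matrix.of_apply, MvPolynomial.mkDerivation_X]
  rfl

theorem fx_ldv_tpf (a : ℕ) (A : Matrix (Fin n) (Fin n) ℚ) (i j : Fin a → Fin n) :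
    ldv A (tpf (fun _ : Fin a => fxX n) i j) =
      (tpf (fun _ : Fin a => fxX n) * dtp a (A.map (fxK n))) i j := by
  have h1 : tpf (fun _ : Fin a => fxX n) * dtp a (A.map (fxK n)) =
      ∑ s : Fin a, tpf (fun r => fxX n * Function.update (fun _ : Fin a =>
        (1 : Matrix (Fin n) (Fin n) (MvPolynomial (Fin n × Fin n) ℚ))) s
          (A.map (fxK n)) r) := by
    rw [dtp, Matrix.mul_sum]
    refine Finset.sum_congr rfl fun s _ => ?_
    rw [fx_tpf_mul]
  rw [h1, Matrix.sum_apply]
  simp only [tpf]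
  rw [fx_der_prod]
  refine Finset.sum_congr rfl fun s _ => ?_
  rw [← Finset.prod_erase_mul Finset.univ _ (Finset.mem_univ s), Function.update_self, fx_ldv_X]
  congr 1
  refine Finset.prod_congr rfl fun r hr => ?_
  rw [Function.update_of_ne (Finset.ne_of_mem_erase hr), Matrix.mul_one]

/-- the commutator of the generic matrix with `t` -/
noncomputable def fxE {a : ℕ} (t : Tensor n a a ℚ) :
    Matrix (Fin a → Fin n) (Fin a → Fin n) (MvPolynomial (Fin n × Fin n) ℚ) :=
  tpf (fun _ : Fin a => fxX n) * (fxm t).map (fxK n) -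
    (fxm t).map (fxK n) * tpf (fun _ : Fin a => fxX n)

theorem fx_ev {K : Type} [Field K] [CharZero K] {a : ℕ} (t : Tensor n a a ℚ)
    (g : Matrix (Fin n) (Fin n) K) (i j : Fin a → Fin n) :
    ev g (fxE t i j) = (tpf (fun _ : Fin a => g) * fxm (t.base K) -
      fxm (t.base K) * tpf (fun _ : Fin a => g)) i j := by
  have h0 : ∀ φ : MvPolynomial (Fin n × Fin n) ℚ →+* K, φ = (ev g : _ →ₐ[ℚ] K).toRingHom →
      (fxE t).map φ = tpf (fun _ : Fin a => g) * fxm (t.base K) -
        fxm (t.base K) * tpf (fun _ : Fin a => g) := by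
    intro φ hφ
    have hX : (fxX n).map φ = g := by
      ext i j
      rw [Matrix.map_apply, hφ]
      exact ev_X g (i, j)
    have hC : ((fxm t).map (fxK n)).map φ = fxm (t.base K) := by
      ext i j
      rw [Matrix.map_apply, Matrix.map_apply, hφ]
      have := ev_C (K₀ := ℚ) g (fxm t i j)
      refine this.trans ?_
      simp [fxm, Tensor.base]
    unfold fxE
    rw [Matrix.map_sub φ (fun x y => map_sub φ x y), Matrix.map_mul, Matrix.map_mul, fx_tpf_map, hC]
    simp only [hX]
  exact congrFun (congrFun (h0 _ rfl) i) j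

theorem fx_ldv_E {a : ℕ} (t : Tensor n a a ℚ) (A : Matrix (Fin n) (Fin n) ℚ) (hA : Kill A t)
    (i j : Fin a → Fin n) :
    ldv A (fxE t i j) = (fxE t * (dtp a A).map (fxK n)) i j := by
  have hC : ∀ x : ℚ, ldv A (fxK n x) = 0 := fun x => (ldv A).map_algebraMap x
  have h1 : ldv A (fxE t i j) =
      (tpf (fun _ : Fin a => fxX n) * dtp a (A.map (fxK n)) *
        (fxm t).map (fxK n) - (fxm t).map (fxK n) *
          (tpf (fun _ : Fin a => fxX n) * dtp a (A.map (fxK n)))) i j := by
    rw [fxE, Matrix.sub_apply, Matrix.sub_apply, map_sub, Matrix.mul_apply, Matrix.mul_apply,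
      Matrix.mul_apply (M := tpf _ * _), Matrix.mul_apply (M := (fxm t).map _), map_sum, map_sum]
    congr 1
    · refine Finset.sum_congr rfl fun k _ => ?_
      rw [Derivation.leibniz, Matrix.map_apply, hC, smul_zero, zero_add, smul_eq_mul, mul_comm,
        fx_ldv_tpf]
    · refine Finset.sum_congr rfl fun k _ => ?_
      rw [Derivation.leibniz, Matrix.map_apply, hC, smul_zero, add_zero, smul_eq_mul, fx_ldv_tpf]
  rw [h1]
  have h2 : dtp a (A.map (fxK n)) * (fxm t).map (fxK n) =
      (fxm t).map (fxK n) * dtp a (A.map (fxK n)) := by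
    rw [← fx_dtp_map (fxK n) A, ← Matrix.map_mul,
      ← Matrix.map_mul]
    congr 1
  rw [fx_dtp_map, Matrix.mul_assoc, h2, fxE, Matrix.sub_mul]
  simp only [Matrix.mul_assoc]

/-- isometries without the eigenvalue `-1` -/
theorem fx_cay {a : ℕ} (ψ : Matrix (Fin n) (Fin n) ℚ) (t : Tensor n a a ℚ) (hψ : ψ.det ≠ 0)
    (hs : ψ.transpose = -ψ ∨ ψ.transpose = ψ)
    (hk : ∀ A : Matrix (Fin n) (Fin n) ℚ, A.transpose * ψ + ψ * A = 0 → Kill A t)
    (K : Type) [Field K] [CharZero K] (g : Matrix (Fin n) (Fin n) K)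
    (hg : g.transpose * bas K ψ * g = bas K ψ) (hdet : (1 + g).det ≠ 0) :
    FxC (t.base K) g := by
  obtain ⟨ε, hε, hε2⟩ : ∃ ε : ℚ, ε * ε = 1 ∧ ψ.transpose = ε • ψ := by
    rcases hs with h | h
    · exact ⟨-1, by ring, by rw [h, neg_one_smul]⟩
    · exact ⟨1, by ring, by rw [h, one_smul]⟩
  have hb : ψ.map (algebraMap ℚ K) = bas K ψ := by
    ext i j
    simp [bas]
  let I : Submodule ℚ (MvPolynomial (Fin n × Fin n) ℚ) :=
    Submodule.span ℚ (Set.range fun p : (Fin a → Fin n) × (Fin a → Fin n) => fxE t p.1 p.2)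
  have hmem : ∀ i j, fxE t i j ∈ I := fun i j => Submodule.subset_span ⟨(i, j), rfl⟩
  have h1 : ∀ f ∈ (I : Set (MvPolynomial (Fin n × Fin n) ℚ)),
      ev (1 : Matrix (Fin n) (Fin n) K) f = 0 := by
    intro f hf
    refine Submodule.span_induction (p := fun f _ => ev (1 : Matrix (Fin n) (Fin n) K) f = 0)
      ?_ (map_zero _) ?_ ?_ hf
    · rintro _ ⟨⟨i, j⟩, rfl⟩
      change ev (1 : Matrix (Fin n) (Fin n) K) (fxE t i j) = 0
      rw [fx_ev, fx_tpf_one, Matrix.one_mul, Matrix.mul_one, sub_self, Matrix.zero_apply]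
    · intro x y _ _ hx hy
      rw [map_add, hx, hy, add_zero]
    · intro c x _ hx
      rw [map_smul, hx, smul_zero]
  have hL : ∀ M : Matrix (Fin n) (Fin n) ℚ, M.transpose * ψ + ψ * M = 0 →
      ∀ f ∈ (I : Set (MvPolynomial (Fin n × Fin n) ℚ)),
        ldv M f ∈ (I : Set (MvPolynomial (Fin n × Fin n) ℚ)) := by
    intro M hM f hf
    have hf' : f ∈ I := hf
    change ldv M f ∈ I
    refine Submodule.span_induction (p := fun (f : MvPolynomial (Fin n × Fin n) ℚ) _ =>
      ldv M f ∈ I) ?_ ?_ ?_ ?_ hf'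
    · rintro _ ⟨⟨i, j⟩, rfl⟩
      change ldv M (fxE t i j) ∈ I
      rw [fx_ldv_E t M (hk M hM), Matrix.mul_apply]
      refine Submodule.sum_mem _ fun k _ => ?_
      rw [Matrix.map_apply, mul_comm, ← MvPolynomial.smul_eq_C_mul]
      exact I.smul_mem _ (hmem i k)
    · rw [map_zero]
      exact I.zero_mem
    · intro x y _ _ hx hy
      rw [map_add]
      exact I.add_mem hx hy
    · intro c x _ hx
      rw [(ldv M).map_smul]
      exact I.smul_mem _ hx
  have h2 := isometry_vanish (K₀ := ℚ) (K := K) two_ne_zero ε hε ψ (isUnit_iff_ne_zero.mpr hψ) hε2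
    (I : Set (MvPolynomial (Fin n × Fin n) ℚ)) h1 hL g (by rw [hb]; exact hg) hdet
  unfold FxC
  rw [← sub_eq_zero]
  ext i j
  rw [← fx_ev, h2 _ (hmem i j), Matrix.zero_apply]

/-- all isometries -/
theorem fx_iso {a : ℕ} (ψ : Matrix (Fin n) (Fin n) ℚ) (t : Tensor n a a ℚ) (hψ : ψ.det ≠ 0)
    (hs : ψ.transpose = -ψ ∨ (ψ.transpose = ψ ∧ Odd n))
    (hk : ∀ A : Matrix (Fin n) (Fin n) ℚ, A.transpose * ψ + ψ * A = 0 → Kill A t)
    (K : Type) [Field K] [CharZero K] (g : Matrix (Fin n) (Fin n) K)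
    (hg : g.transpose * bas K ψ * g = bas K ψ) : FxC (t.base K) g := by
  have hdet := bas_det K ψ hψ
  have hu : IsUnit (bas K ψ).det := isUnit_iff_ne_zero.mpr hdet
  rcases hs with h | ⟨h, hn⟩
  · have h' : (bas K ψ).transpose = -bas K ψ := by
      ext i j
      have h1 := congrFun (congrFun h i) j
      rw [Matrix.transpose_apply, Matrix.neg_apply] at h1
      rw [Matrix.transpose_apply, Matrix.neg_apply]
      simp only [bas, Matrix.map_apply]
      rw [h1]
      push_cast
      rfl
    obtain ⟨s, r, hs, hr, hs1, hr1, hsr⟩ := symplectic_factor (bas K ψ) hu h' g hg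
    rw [← hsr]
    exact fx_mul (fx_cay ψ t hψ (Or.inl h) hk K s hs hs1)
      (fx_cay ψ t hψ (Or.inl h) hk K r hr hr1)
  · have h' : (bas K ψ).transpose = bas K ψ := by
      ext i j
      have h1 := congrFun (congrFun h i) j
      rw [Matrix.transpose_apply] at h1
      rw [Matrix.transpose_apply]
      simp only [bas, Matrix.map_apply]
      rw [h1]
    have key : ∀ x : Matrix (Fin n) (Fin n) K, x.transpose * bas K ψ * x = bas K ψ → x.det = 1 →
        FxC (t.base K) x := by
      intro x hx hx1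
      have h2 := st_ISM K n (bas K ψ) {y | FxC (t.base K) (y : Matrix (Fin n) (Fin n) K)} hdet
        (Or.inr h') (fun y hy z hz => fx_mul hy hz)
        (fun y hy hy1 => fx_cay ψ t hψ (Or.inr h) hk K _ hy hy1)
        (Matrix.GeneralLinearGroup.mkOfDetNeZero x (by rw [hx1]; exact one_ne_zero)) hx hx1
      exact h2
    have hd : g.det = 1 ∨ g.det = -1 := by
      have h3 := congrArg Matrix.det hg
      rw [Matrix.det_mul, Matrix.det_mul, Matrix.det_transpose] at h3
      have h4 : (g.det * g.det - 1) * (bas K ψ).det = 0 := by linear_combination h3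
      rcases mul_eq_zero.mp h4 with h5 | h5
      · have h6 : g.det * g.det = 1 := sub_eq_zero.mp h5
        exact mul_self_eq_one_iff.mp h6
      · exact absurd h5 hdet
    rcases hd with hd | hd
    · exact key g hg hd
    · have h5 : FxC (t.base K) (-g) := by
        refine key (-g) ?_ ?_
        · rw [Matrix.transpose_neg, Matrix.neg_mul, Matrix.neg_mul, Matrix.mul_neg, neg_neg, hg]
        · rw [Matrix.det_neg, hd, Fintype.card_fin, hn.neg_one_pow]
          ring
      have h6 : g = (-1 : K) • (-g) := by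
        rw [neg_one_smul, neg_neg]
      unfold FxC at h5 ⊢
      rw [h6, fx_tpf_smul, Matrix.smul_mul, Matrix.mul_smul, h5]

/-- FIX -/
theorem st_FIX : ST_FIX := by
  intro n a ψ t hψ hs hk K _ _ g hg
  obtain ⟨c, hc⟩ := hg
  apply fx_fix
  have hdet := bas_det K ψ hψ
  have hgd : ((g : Matrix (Fin n) (Fin n) K)).det ≠ 0 := by
    have := (Matrix.isUnit_iff_isUnit_det _).mp (Units.isUnit g)
    exact this.ne_zero
  -- the multiplier is not zero, or `n = 0`
  have hc0 : c ≠ 0 ∨ n = 0 := by
    by_contra hcon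
    push Not at hcon
    obtain ⟨h1, h2⟩ := hcon
    rw [h1, zero_smul] at hc
    have h3 := congrArg Matrix.det hc
    rw [Matrix.det_mul, Matrix.det_mul, Matrix.det_transpose] at h3
    have : Nonempty (Fin n) := ⟨⟨0, Nat.pos_of_ne_zero h2⟩⟩
    rw [Matrix.det_zero] at h3
    rcases mul_eq_zero.mp h3 with h4 | h4
    · rcases mul_eq_zero.mp h4 with h5 | h5
      · exact hgd h5
      · exact hdet h5
    · exact hgd h4
  rcases hc0 with hc0 | hn
  · let L := AlgebraicClosure K
    have : CharZero L := charZero_of_injective_algebraMap (algebraMap K L).injective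
    obtain ⟨d, hd⟩ := IsAlgClosed.exists_pow_nat_eq (algebraMap K L c) (n := 2) (by norm_num)
    have hd0 : d ≠ 0 := by
      rintro rfl
      rw [zero_pow two_ne_zero] at hd
      exact hc0 ((map_eq_zero (algebraMap K L)).mp hd.symm)
    set φ := algebraMap K L with hφ
    set gL : Matrix (Fin n) (Fin n) L := (g : Matrix (Fin n) (Fin n) K).map φ with hgL
    have h1 : gL.transpose * bas L ψ * gL = (d ^ 2) • bas L ψ := by
      have h2 := congrArg (fun m : Matrix (Fin n) (Fin n) K => m.map φ) hc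
      simp only [Matrix.map_mul] at h2
      rw [bas_map, Matrix.transpose_map, ← hgL] at h2
      rw [h2, hd, ← bas_map φ ψ]
      ext i j
      simp
    have h3 : FxC (t.base L) (d⁻¹ • gL) := by
      refine fx_iso ψ t hψ hs hk L _ ?_
      rw [Matrix.transpose_smul, Matrix.smul_mul, Matrix.smul_mul, Matrix.mul_smul, h1, smul_smul,
        smul_smul]
      have : d⁻¹ * d⁻¹ * d ^ 2 = 1 := by
        rw [pow_two, mul_assoc, ← mul_assoc d⁻¹ d d, inv_mul_cancel₀ hd0, one_mul,
          inv_mul_cancel₀ hd0]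
      rw [this, one_smul]
    have h4 : FxC (t.base L) gL := by
      have h5 : gL = d • (d⁻¹ • gL) := by
        rw [smul_smul, mul_inv_cancel₀ hd0, one_smul]
      unfold FxC at h3 ⊢
      rw [h5, fx_tpf_smul, Matrix.smul_mul, Matrix.mul_smul, h3]
    have hbase : fxm (t.base L) = (fxm (t.base K)).map φ := by
      ext i j
      simp [fxm, Tensor.base]
    unfold FxC at h4 ⊢
    rw [hbase, hgL, ← fx_tpf_map φ (fun _ : Fin a => (g : Matrix (Fin n) (Fin n) K)),
      ← Matrix.map_mul, ← Matrix.map_mul] at h4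
    ext i j
    have h6 := congrFun (congrFun h4 i) j
    rw [Matrix.map_apply, Matrix.map_apply] at h6
    exact φ.injective h6
  · subst hn
    have h1 : (g : Matrix (Fin 0) (Fin 0) K) = 1 := Subsingleton.elim _ _
    rw [h1]
    unfold FxC
    rw [fx_tpf_one, Matrix.one_mul, Matrix.mul_one]

end HD
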